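import Pool.Agent.helper41.CL.Spec

/-!
# Row `EB` (MP_d9d598_co)
-/

set_option autoImplicit false

namespace Pool.Agent.helper41.CL

open Finset

theorem EB_gr {α : Type} [DecidableEq α] {V : Finset α} {E : Finset (Finset α)} (h : Gr V E) (p : α) :
    Gr (V.erase p) (E.filter fun e => p ∉ e) := by
  intro e he
  rw [mem_filter] at he
  refine ⟨fun x hx => mem_erase.2 ⟨fun hxp => he.2 (hxp ▸ hx), (h e he.1).1 hx⟩, (h e he.1).2⟩

theorem EB_memV {α : Type} [DecidableEq α] {V : Finset α} {E : Finset (Finset α)} (h : Gr V E) {p : α}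
    (hp : 1 ≤ #(inc E p)) : p ∈ V := by
  obtain ⟨e, he⟩ := card_pos.1 hp
  unfold inc at he
  rw [mem_filter] at he
  exact (h e he.1).1 he.2

theorem EB_card {α : Type} [DecidableEq α] (E : Finset (Finset α)) (p : α) :
    #(inc E p) + #(E.filter fun e => p ∉ e) = #E := by
  unfold inc
  exact card_filter_add_card_filter_not (s := E) (fun e => p ∈ e)

theorem EB_pair {α : Type} [DecidableEq α] {V : Finset α} {E : Finset (Finset α)} (h : Gr V E) {p : α}
    {f : Finset α} (hf : f ∈ E) (hp : p ∈ f) : ∃ a, a ≠ p ∧ f = {p, a} ∧ a ∈ V := by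
  obtain ⟨x, y, hxy, hfx⟩ := card_eq_two.1 (h f hf).2
  have hs := (h f hf).1
  rw [hfx, mem_insert, mem_singleton] at hp
  rcases hp with rfl | rfl
  · exact ⟨y, hxy.symm, hfx, hs (by rw [hfx]; simp)⟩
  · exact ⟨x, hxy, by rw [hfx, pair_comm], hs (by rw [hfx]; simp)⟩

theorem EB (h1 : AZ_stmt) (h2 : AO_stmt) (h3 : SP_stmt) (h4 : WO_stmt) (h5 : EA_stmt) (h6 : EX_stmt) :
    EB_stmt := by
  intro α _ V E D hG hE3 hV hD hD2
  rcases h6 α V E D hG hD hD2 with ⟨p, hp⟩ | ⟨p, q, hpq, hp, hq, hE⟩
  · have hpV : p ∈ V := EB_memV hG (by omega)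
    obtain ⟨m, hm⟩ : ∃ m, #E = m + 3 := ⟨#E - 3, by omega⟩
    have hc := EB_card E p
    have hsp := h3 α V E p (m + 1) hpV
    have hVe : #(V.erase p) = 2 * m + 4 := by
      rw [card_erase_of_mem hpV]
      omega
    have hao := h2 α (V.erase p) (E.filter fun e => p ∉ e) m (EB_gr hG p) (by omega) (by omega)
    rw [hVe, show 2 * (2 * m + 4) - 3 * m = m + 8 by omega] at hao
    rw [hm, show m + 3 - 1 = m + 1 + 1 by omega, hsp]
    have e2 : 2 ^ (m + 3) = 8 * 2 ^ m := by ring
    rw [e2]
    have h0 : 0 < 2 ^ m := by positivity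
    nlinarith
  · have hpV : p ∈ V := EB_memV hG (by omega)
    have hqV : q ∈ V := EB_memV hG (by omega)
    -- no member contains both
    have hno : ∀ f ∈ E, p ∈ f → q ∉ f := by
      intro f hf hpf hqf
      obtain ⟨a, ha, hfa, _⟩ := EB_pair hG hf hpf
      rw [hfa, mem_insert, mem_singleton] at hqf
      rcases hqf with h | h
      · exact hpq h.symm
      · rw [h] at hE
        exact hE (hfa ▸ hf)
    have hcp := EB_card E p
    -- the members without `p`
    have hinc : inc (E.filter fun e => p ∉ e) q = inc E q := by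
      unfold inc
      ext f
      simp only [mem_filter]
      constructor
      · rintro ⟨⟨a, _⟩, b⟩
        exact ⟨a, b⟩
      · rintro ⟨a, b⟩
        exact ⟨⟨a, fun hpf => hno f a hpf b⟩, b⟩
    have hq1 : 2 ≤ #(E.filter fun e => p ∉ e) := by
      have := EB_card (E.filter fun e => p ∉ e) q
      rw [hinc] at this
      omega
    obtain ⟨m, hm⟩ : ∃ m, #E = m + 4 := ⟨#E - 4, by omega⟩
    have hE1 : #(E.filter fun e => p ∉ e) = m + 2 := by omega
    have hsp := h3 α V E p (m + 2) hpV
    have hVe : #(V.erase p) = 2 * m + 6 := by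
      rw [card_erase_of_mem hpV]
      omega
    have hea := h5 α (V.erase p) (E.filter fun e => p ∉ e) q (EB_gr hG p) (by rw [hinc, hq])
      (by omega)
    rw [hVe, hE1, show 2 * (2 * m + 6) - 3 * (m + 2) + 6 = m + 12 by omega] at hea
    -- the neighbours of `p`
    obtain ⟨f1, f2, hf12, hf⟩ := card_eq_two.1 hp
    have hf1 : f1 ∈ E ∧ p ∈ f1 := by
      have : f1 ∈ inc E p := by rw [hf]; simp
      unfold inc at this
      rwa [mem_filter] at this
    have hf2 : f2 ∈ E ∧ p ∈ f2 := by
      have : f2 ∈ inc E p := by rw [hf]; simp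
      unfold inc at this
      rwa [mem_filter] at this
    obtain ⟨a, hap, hfa, haV⟩ := EB_pair hG hf1.1 hf1.2
    obtain ⟨b, hbp, hfb, hbV⟩ := EB_pair hG hf2.1 hf2.2
    have hab : a ≠ b := by
      intro h
      apply hf12
      rw [hfa, hfb, h]
    have hall : ∀ e ∈ E, p ∈ e → e = {p, a} ∨ e = {p, b} := by
      intro e he hpe
      have : e ∈ inc E p := by
        unfold inc
        rw [mem_filter]
        exact ⟨he, hpe⟩
      rw [hf, mem_insert, mem_singleton] at this
      rcases this with h | h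
      · exact Or.inl (h.trans hfa)
      · exact Or.inr (h.trans hfb)
    have hwo := h4 α V E p a b (m + 1) haV hbV hap.symm hbp.symm hab hall
    have hqa : q ≠ a := by
      intro h
      rw [h] at hE
      exact hE (hfa ▸ hf1.1)
    have hqb : q ≠ b := by
      intro h
      rw [h] at hE
      exact hE (hfb ▸ hf2.1)
    have hV0 : #(V \ {p, a, b}) = 2 * m + 4 := by
      rw [card_sdiff_of_subset]
      · rw [card_eq_three.2 ⟨p, a, b, hap.symm, hbp.symm, hab, rfl⟩]
        omega
      · intro x hx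
        rw [mem_insert, mem_insert, mem_singleton] at hx
        rcases hx with rfl | rfl | rfl
        · exact hpV
        · exact haV
        · exact hbV
    have hqV0 : q ∈ V \ {p, a, b} := by
      rw [mem_sdiff, mem_insert, mem_insert, mem_singleton]
      refine ⟨hqV, ?_⟩
      rintro (h | h | h)
      · exact hpq h.symm
      · exact hqa h
      · exact hqb h
    have hG0 : Gr (V \ {p, a, b}) (E.filter fun e => p ∉ e ∧ a ∉ e ∧ b ∉ e) := by
      intro e he
      rw [mem_filter] at he
      refine ⟨fun x hx => ?_, (hG e he.1).2⟩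
      rw [mem_sdiff, mem_insert, mem_insert, mem_singleton]
      refine ⟨(hG e he.1).1 hx, ?_⟩
      rintro (h | h | h)
      · exact he.2.1 (h ▸ hx)
      · exact he.2.2.1 (h ▸ hx)
      · exact he.2.2.2 (h ▸ hx)
    have hsub : (E.filter fun e => p ∉ e ∧ a ∉ e ∧ b ∉ e) ⊆ E.filter fun e => p ∉ e := by
      intro e he
      rw [mem_filter] at he ⊢
      exact ⟨he.1, he.2.1⟩
    have hkey : 2 ^ m ≤ #(cov (V \ {p, a, b}) (E.filter fun e => p ∉ e ∧ a ∉ e ∧ b ∉ e) (m + 1)) := by
      by_cases hi : 2 ≤ #(inc (E.filter fun e => p ∉ e ∧ a ∉ e ∧ b ∉ e) q)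
      · have hs := h3 α (V \ {p, a, b}) (E.filter fun e => p ∉ e ∧ a ∉ e ∧ b ∉ e) q m hqV0
        have hc := EB_card (E.filter fun e => p ∉ e ∧ a ∉ e ∧ b ∉ e) q
        have hl := card_le_card hsub
        have hz := h1 α ((V \ {p, a, b}).erase q)
          ((E.filter fun e => p ∉ e ∧ a ∉ e ∧ b ∉ e).filter fun e => q ∉ e) m (EB_gr hG0 q)
          (by omega) (by rw [card_erase_of_mem hqV0]; omega)
        omega
      · have hlt : #(E.filter fun e => p ∉ e ∧ a ∉ e ∧ b ∉ e) < #(E.filter fun e => p ∉ e) := by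
          refine card_lt_card (hsub.ssubset_of_ne fun heq => ?_)
          rw [heq, hinc, hq] at hi
          exact hi le_rfl
        have hz := h1 α (V \ {p, a, b}) (E.filter fun e => p ∉ e ∧ a ∉ e ∧ b ∉ e) (m + 1) hG0
          (by omega) (by omega)
        have : 2 ^ m ≤ 2 ^ (m + 1) := Nat.pow_le_pow_right (by norm_num) (by omega)
        exact this.trans hz
    have hN2 := hkey.trans hwo
    rw [hm, show m + 4 - 1 = m + 2 + 1 by omega, hsp]
    have e2 : 2 ^ (m + 4) = 16 * 2 ^ m := by ring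
    have e3 : 2 ^ (m + 2) = 4 * 2 ^ m := by ring
    rw [e3] at hea
    rw [e2]
    have h0 : 0 < 2 ^ m := by positivity
    have e4 : m + 1 + 2 = m + 2 + 1 := by omega
    rw [e4] at hN2
    nlinarith

end Pool.Agent.helper41.CL
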