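import Pool.Agent.helper41.CL.SpecC

/-!
# Row `DF` (MP_d9d598_co)
-/

set_option autoImplicit false

namespace Pool.Agent.helper41.CL

open Finset

theorem DF_gr {α : Type} [DecidableEq α] {V : Finset α} {E : Finset (Finset α)} (h : Gr V E) (p : α) :
    Gr (V.erase p) (E.filter fun e => p ∉ e) := by
  intro e he
  rw [mem_filter] at he
  refine ⟨fun x hx => mem_erase.2 ⟨fun hxp => he.2 (hxp ▸ hx), (h e he.1).1 hx⟩, (h e he.1).2⟩

theorem DF_memV {α : Type} [DecidableEq α] {V : Finset α} {E : Finset (Finset α)} (h : Gr V E) {p : α}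
    (hp : 1 ≤ #(inc E p)) : p ∈ V := by
  obtain ⟨e, he⟩ := card_pos.1 hp
  unfold inc at he
  rw [mem_filter] at he
  exact (h e he.1).1 he.2

theorem DF_card {α : Type} [DecidableEq α] (E : Finset (Finset α)) (p : α) :
    #(inc E p) + #(E.filter fun e => p ∉ e) = #E := by
  unfold inc
  exact card_filter_add_card_filter_not (s := E) (fun e => p ∈ e)

theorem DF_no {α : Type} [DecidableEq α] {V : Finset α} {E : Finset (Finset α)} (h : Gr V E) {x y : α}
    (hxy : x ≠ y) (hn : ({x, y} : Finset α) ∉ E) {f : Finset α} (hf : f ∈ E) (hx : x ∈ f) : y ∉ f := by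
  intro hy
  apply hn
  have hs : ({x, y} : Finset α) ⊆ f := by
    intro z hz
    rw [mem_insert, mem_singleton] at hz
    rcases hz with rfl | rfl
    · exact hx
    · exact hy
  have hc : #f ≤ #({x, y} : Finset α) := by rw [card_pair hxy, (h f hf).2]
  rw [eq_of_subset_of_card_le hs hc]
  exact hf

theorem DF_disj {α : Type} [DecidableEq α] {V : Finset α} {E : Finset (Finset α)} (h : Gr V E) {x y : α}
    (hxy : x ≠ y) (hn : ({x, y} : Finset α) ∉ E) : Disjoint (inc E x) (inc E y) := by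
  rw [disjoint_left]
  intro f hf hg
  unfold inc at hf hg
  rw [mem_filter] at hf hg
  exact DF_no h hxy hn hf.1 hf.2 hg.2

theorem DF_inc {α : Type} [DecidableEq α] {V : Finset α} {E : Finset (Finset α)} (h : Gr V E) {p q : α}
    (hpq : p ≠ q) (hn : ({p, q} : Finset α) ∉ E) :
    inc (E.filter fun e => p ∉ e) q = inc E q := by
  unfold inc
  ext f
  simp only [mem_filter]
  constructor
  · rintro ⟨⟨a, _⟩, b⟩
    exact ⟨a, b⟩
  · rintro ⟨a, b⟩
    exact ⟨⟨a, fun hpf => DF_no h hpq hn a hpf b⟩, b⟩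

theorem DF (h1 : SP_stmt) (h2 : EB_stmt) (h3 : DD_stmt) : DF_stmt := by
  intro α _ V E p q₁ q₂ q₃ hG hV n1 n2 n3 n12 n13 n23 dp d1 d2 d3 e1 e2 e3 e12 e13 e23
  have hpV : p ∈ V := DF_memV hG (by omega)
  -- at least eight members
  have h8 : 8 ≤ #E := by
    have hd1 : Disjoint (inc E p) (inc E q₁) := DF_disj hG n1 e1
    have hd2 : Disjoint (inc E p ∪ inc E q₁) (inc E q₂) :=
      disjoint_union_left.2 ⟨DF_disj hG n2 e2, DF_disj hG n12 e12⟩
    have hd3 : Disjoint (inc E p ∪ inc E q₁ ∪ inc E q₂) (inc E q₃) :=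
      disjoint_union_left.2 ⟨disjoint_union_left.2 ⟨DF_disj hG n3 e3, DF_disj hG n13 e13⟩,
        DF_disj hG n23 e23⟩
    have hc : #(inc E p ∪ inc E q₁ ∪ inc E q₂ ∪ inc E q₃) = 8 := by
      rw [card_union_of_disjoint hd3, card_union_of_disjoint hd2, card_union_of_disjoint hd1, dp, d1,
        d2, d3]
    rw [← hc]
    refine card_le_card ?_
    intro f hf
    simp only [mem_union, inc, mem_filter] at hf
    tauto
  have hcp := DF_card E p
  have hVe : #(V.erase p) = 2 * #E - 5 := by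
    rw [card_erase_of_mem hpV]
    omega
  have hE1 : #(E.filter fun e => p ∉ e) = #E - 2 := by omega
  obtain ⟨D, hD, hD2⟩ := h3 α (V.erase p) (E.filter fun e => p ∉ e) q₁ q₂ (DF_gr hG p) n12
    (fun h => e12 (mem_filter.1 h).1) (by rw [DF_inc hG n1 e1, d1]) (by rw [DF_inc hG n2 e2, d2])
  have hb := h2 α (V.erase p) (E.filter fun e => p ∉ e) D (DF_gr hG p) (by omega) (by omega) hD hD2
  obtain ⟨m, hm⟩ : ∃ m, #E = m + 8 := ⟨#E - 8, by omega⟩
  have hsp := h1 α V E p (m + 5) hpV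
  rw [hE1, hm, show m + 8 - 2 - 1 = m + 5 by omega, show m + 8 - 2 = m + 6 by omega] at hb
  rw [hm, show m + 8 - 2 = m + 5 + 1 by omega, hsp]
  have p1 : 2 ^ (m + 8) = 4 * 2 ^ (m + 6) := by ring
  rw [p1]
  have h0 : 0 < 2 ^ (m + 6) := by positivity
  nlinarith

end Pool.Agent.helper41.CL
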